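import Pool.Agent.Run7.h9.Asym

set_option autoImplicit false

namespace Pool.Agent.Results.MP_358d01_co.FewDirections

open Run7.h9

/-- The Füredi type bound for hierarchical sets with few directions: for every `d ≥ 2` there is a
constant `K` such that every hierarchical set in `ℝ^d` whose branches follow pairwise distinct
directions from a set of at most `C` vectors, and which has at least
`exp (K n^(1/(d-1)) log (C+1))` points, contains `n` points in convex position. -/
theorem result : ∀ d : ℕ, 2 ≤ d → ∃ K : ℝ, ∀ n C : ℕ, 1 ≤ n → 1 ≤ C →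
    ∀ (D : Finset (EuclideanSpace ℝ (Fin d))) (T : HSet d), D.card ≤ C → Hierarchical T →
      (∀ L ∈ T.branches, (L.map Split.dir).Nodup ∧ ∀ s ∈ L, s.dir ∈ D) →
      Real.exp (K * (n : ℝ) ^ (1 / ((d : ℝ) - 1)) * Real.log (C + 1)) ≤ (T.points.card : ℝ) →
      ∃ Y ⊆ T.points, Y.card = n ∧
        ∀ p ∈ Y, p ∉ convexHull ℝ ((Y.erase p : Finset (EuclideanSpace ℝ (Fin d))) :
          Set (EuclideanSpace ℝ (Fin d))) := by
  intro d hd
  refine ⟨3 * d, ?_⟩
  intro n C hn hC D T hD hT hdir hN
  exact few_directions_bound hd n hn C hC D hD T hT hdir hN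

end Pool.Agent.Results.MP_358d01_co.FewDirections
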