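import Pool.Agent.Run7.h9.Asym

set_option autoImplicit false

namespace Pool.Agent.Results.MP_358d01_co.HierarchicalSets

open Run7.h9

/-- For every `d ≥ 2` there is a constant `K` such that every hierarchical set in `ℝ^d` with at
least `exp (K n^(2/(d-1)) log (n+1))` points contains `n` points in convex position. -/
theorem result : ∀ d : ℕ, 2 ≤ d → ∃ K : ℝ, ∀ n : ℕ, 1 ≤ n → ∀ T : HSet d, Hierarchical T →
      Real.exp (K * (n : ℝ) ^ (2 / ((d : ℝ) - 1)) * Real.log (n + 1)) ≤ (T.points.card : ℝ) →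
      ∃ Y ⊆ T.points, Y.card = n ∧
        ∀ p ∈ Y, p ∉ convexHull ℝ ((Y.erase p : Finset (EuclideanSpace ℝ (Fin d))) :
          Set (EuclideanSpace ℝ (Fin d))) := by
  intro d hd
  refine ⟨2 * d * (2 * d + 6), ?_⟩
  intro n hn T hT hN
  exact general_bound hd n hn T hT hN

end Pool.Agent.Results.MP_358d01_co.HierarchicalSets
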